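import Pool.Agent.Helper81.AD2.Goals

/-!
# CMP: comparison of the coinvariants
-/

namespace Pool.Agent.Helper27.AD2.CMP

open Pool.Agent.Helper81.AD2

/-- Rank and nullity of a linear map on a submodule. -/
theorem rn {M M2 : Type} [AddCommGroup M] [Module ℚ M] [FiniteDimensional ℚ M]
    [AddCommGroup M2] [Module ℚ M2] (f : M →ₗ[ℚ] M2) (S : Submodule ℚ M) :
    Module.finrank ℚ (S.map f) + Module.finrank ℚ (S ⊓ LinearMap.ker f : Submodule ℚ M) =
      Module.finrank ℚ S := by
  have h := LinearMap.finrank_range_add_finrank_ker (f.domRestrict S)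
  rw [LinearMap.range_domRestrict] at h
  have h2 : LinearMap.ker (f.domRestrict S) = (S ⊓ LinearMap.ker f).comap S.subtype := by
    ext x
    simp
  rw [h2, (Submodule.comapSubtypeEquivOfLe (inf_le_left : S ⊓ LinearMap.ker f ≤ S)).finrank_eq] at h
  exact h

/-- The averaging operator. -/
noncomputable def av {M : Type} [AddCommGroup M] [Module ℚ M] {G : Type} [Group G] [Fintype G]
    (ρ : G →* (M →ₗ[ℚ] M)) : M →ₗ[ℚ] M := (Fintype.card G : ℚ)⁻¹ • ∑ g, ρ g

theorem av_apply {M : Type} [AddCommGroup M] [Module ℚ M] {G : Type} [Group G] [Fintype G]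
    (ρ : G →* (M →ₗ[ℚ] M)) (x : M) : av ρ x = (Fintype.card G : ℚ)⁻¹ • ∑ g, ρ g x := by
  simp [av, LinearMap.smul_apply, LinearMap.sum_apply]

theorem av_mem {M : Type} [AddCommGroup M] [Module ℚ M] {G : Type} [Group G] [Fintype G]
    (ρ : G →* (M →ₗ[ℚ] M)) (N : Submodule ℚ M) (hN : ∀ g, N.map (ρ g) ≤ N) {x : M}
    (hx : x ∈ N) : av ρ x ∈ N := by
  rw [av_apply]
  apply Submodule.smul_mem
  apply Submodule.sum_mem
  intro g _
  exact hN g (Submodule.mem_map_of_mem hx)

theorem av_rho {M : Type} [AddCommGroup M] [Module ℚ M] {G : Type} [Group G] [Fintype G]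
    (ρ : G →* (M →ₗ[ℚ] M)) (h : G) (x : M) : av ρ (ρ h x) = av ρ x := by
  rw [av_apply, av_apply]
  congr 1
  rw [← Equiv.sum_comp (Equiv.mulRight h) (fun g => ρ g x)]
  apply Finset.sum_congr rfl
  intro g _
  simp [map_mul]

theorem card_ne {G : Type} [Group G] [Fintype G] : (Fintype.card G : ℚ) ≠ 0 := by
  exact_mod_cast Fintype.card_ne_zero

theorem av_av {M : Type} [AddCommGroup M] [Module ℚ M] {G : Type} [Group G] [Fintype G]
    (ρ : G →* (M →ₗ[ℚ] M)) (x : M) : av ρ (av ρ x) = av ρ x := by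
  conv_lhs => rw [av_apply ρ x]
  rw [map_smul, map_sum]
  simp only [av_rho]
  rw [Finset.sum_const, Finset.card_univ, ← Nat.cast_smul_eq_nsmul ℚ, smul_smul,
    inv_mul_cancel₀ card_ne, one_smul]

theorem ker_av {M : Type} [AddCommGroup M] [Module ℚ M] {G : Type} [Group G] [Fintype G]
    (ρ : G →* (M →ₗ[ℚ] M)) :
    LinearMap.ker (av ρ) = Submodule.span ℚ {v | ∃ (g : G) (w : M), v = w - ρ g w} := by
  apply le_antisymm
  · intro x hx
    rw [LinearMap.mem_ker] at hx
    have h1 : x = (Fintype.card G : ℚ)⁻¹ • ∑ g, (x - ρ g x) := by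
      rw [Finset.sum_sub_distrib, Finset.sum_const, Finset.card_univ, smul_sub, ← av_apply, hx,
        sub_zero, ← Nat.cast_smul_eq_nsmul ℚ, smul_smul, inv_mul_cancel₀ card_ne, one_smul]
    rw [h1]
    apply Submodule.smul_mem
    apply Submodule.sum_mem
    intro g _
    exact Submodule.subset_span ⟨g, x, rfl⟩
  · rw [Submodule.span_le]
    rintro v ⟨g, w, rfl⟩
    rw [SetLike.mem_coe, LinearMap.mem_ker, map_sub, av_rho, sub_self]

theorem t : S_CMP := by
  intro M _ _ _ G _ _ ρ m F N N' hmono h0 hm hF hN hN' hstep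
  rw [← ker_av]
  set e := av ρ with he
  set R := LinearMap.ker e with hR
  -- the dimensions of the quotients
  have hsup : ∀ S : Submodule ℚ M, Module.finrank ℚ (S ⊔ R : Submodule ℚ M) =
      Module.finrank ℚ (S.map e) + Module.finrank ℚ R := by
    intro S
    have h1 := rn e (S ⊔ R)
    have h2 : (S ⊔ R).map e = S.map e := by
      rw [Submodule.map_sup]
      have : R.map e = ⊥ := by
        rw [eq_bot_iff]
        rintro _ ⟨x, hx, rfl⟩
        rw [Submodule.mem_bot]
        exact LinearMap.mem_ker.1 hx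
      rw [this, sup_bot_eq]
    have h3 : (S ⊔ R) ⊓ LinearMap.ker e = R := inf_eq_right.2 le_sup_right
    rw [h2, h3] at h1
    exact h1.symm
  -- the main inequality
  have key : ∀ n ≤ m, Module.finrank ℚ (N.map e ⊓ F n : Submodule ℚ M) ≤
      Module.finrank ℚ (N'.map e ⊓ F n : Submodule ℚ M) := by
    intro n
    induction n with
    | zero =>
      intro _
      rw [h0, inf_bot_eq, inf_bot_eq]
    | succ n ih =>
      intro hn
      have ih' := ih (by omega)
      have hFn : F n ≤ F (n + 1) := hmono (Nat.le_succ n)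
      have h1 := rn (F n).mkQ (N.map e ⊓ F (n + 1))
      have h2 := rn (F n).mkQ (N'.map e ⊓ F (n + 1))
      have h3 : ∀ S : Submodule ℚ M, (S ⊓ F (n + 1)) ⊓ LinearMap.ker (F n).mkQ = S ⊓ F n := by
        intro S
        rw [Submodule.ker_mkQ, inf_assoc, inf_eq_right.2 hFn]
      rw [h3] at h1 h2
      have h4 : (N.map e ⊓ F (n + 1)).map (F n).mkQ ≤ (N'.map e ⊓ F (n + 1)).map (F n).mkQ := by
        rintro _ ⟨x, hx, rfl⟩
        obtain ⟨hx1, hx2⟩ := hx
        obtain ⟨x0, hx0, hx0e⟩ := hx1
        have hxN : x ∈ N := by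
          rw [← hx0e]
          exact av_mem ρ N hN hx0
        have hxe : e x = x := by
          rw [← hx0e]
          exact av_av ρ x0
        obtain ⟨y, hy, z, hz, hyz⟩ := Submodule.mem_sup.1 (hstep n (by omega) ⟨hxN, hx2⟩)
        have hez : e z ∈ F n := av_mem ρ (F n) (fun g => hF g n) hz
        have hsum : e y + e z = x := by
          rw [← map_add, hyz, hxe]
        refine ⟨e y, ⟨Submodule.mem_map_of_mem hy, ?_⟩, ?_⟩
        · have : e y = x - e z := by rw [← hsum]; abel
          rw [this]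
          exact Submodule.sub_mem _ hx2 (hFn hez)
        · rw [← sub_eq_zero, ← map_sub]
          rw [Submodule.mkQ_apply, Submodule.Quotient.mk_eq_zero]
          have : e y - x = -e z := by rw [← hsum]; abel
          rw [this]
          exact Submodule.neg_mem _ hez
      have h5 := Submodule.finrank_mono h4
      omega
  have hk := key m le_rfl
  rw [hm, inf_top_eq, inf_top_eq] at hk
  have q1 := Submodule.finrank_quotient_add_finrank (N' ⊔ R)
  have q2 := Submodule.finrank_quotient_add_finrank (N ⊔ R)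
  rw [hsup] at q1 q2
  omega

end Pool.Agent.Helper27.AD2.CMP
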